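import Pool.Agent.H295R3.NA.Stmts

/-! Task FIN of project H295-NA: assembly of the asymptotic formula for the number of
non-arithmetic integers. -/

set_option autoImplicit false

open Finset ArithmeticFunction Filter Topology

namespace Pool.Agent.H32R3.NA

open Pool.Agent.H295R3.NA

theorem Nb_mono {P Q : ℕ → Prop} {x : ℕ} (h : ∀ n, 1 ≤ n → P n → Q n) : Nb P x ≤ Nb Q x := by
  classical
  unfold Nb
  norm_cast
  apply Finset.card_le_card
  intro n hn
  simp only [Finset.mem_filter] at hn ⊢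
  exact ⟨hn.1, h n (Finset.mem_Icc.1 hn.1).1 hn.2⟩

theorem Nb_or (P Q : ℕ → Prop) (x : ℕ) : Nb (fun n => P n ∨ Q n) x ≤ Nb P x + Nb Q x := by
  classical
  unfold Nb
  norm_cast
  refine le_trans (Finset.card_le_card ?_) (Finset.card_union_le _ _)
  intro n hn
  simp only [Finset.mem_filter] at hn
  simp only [Finset.mem_union, Finset.mem_filter]
  rcases hn.2 with h | h
  · exact Or.inl ⟨hn.1, h⟩
  · exact Or.inr ⟨hn.1, h⟩

theorem Nb_exists (S : Finset ℕ) (P : ℕ → ℕ → Prop) (x : ℕ) :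
    Nb (fun n => ∃ l ∈ S, P l n) x ≤ ∑ l ∈ S, Nb (P l) x := by
  classical
  unfold Nb
  rw [← Nat.cast_sum]
  norm_cast
  refine le_trans (Finset.card_le_card ?_) Finset.card_biUnion_le
  intro n hn
  simp only [Finset.mem_filter] at hn
  obtain ⟨l, hl, h⟩ := hn.2
  simp only [Finset.mem_biUnion, Finset.mem_filter]
  exact ⟨l, hl, hn.1, h⟩

theorem Nb_disj (S : Finset ℕ) (P : ℕ → ℕ → Prop) (Q : ℕ → Prop) (x : ℕ)
    (hPQ : ∀ l ∈ S, ∀ n, 1 ≤ n → P l n → Q n)
    (hdis : ∀ l ∈ S, ∀ l' ∈ S, ∀ n, P l n → P l' n → l = l') :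
    ∑ l ∈ S, Nb (P l) x ≤ Nb Q x := by
  classical
  unfold Nb
  rw [← Nat.cast_sum]
  norm_cast
  rw [← Finset.card_biUnion]
  · apply Finset.card_le_card
    intro n hn
    simp only [Finset.mem_biUnion, Finset.mem_filter] at hn ⊢
    obtain ⟨l, hl, h⟩ := hn
    exact ⟨h.1, hPQ l hl n (Finset.mem_Icc.1 h.1).1 h.2⟩
  · intro l hl l' hl' hne
    rw [Function.onFun, Finset.disjoint_left]
    intro n hn hn'
    simp only [Finset.mem_filter] at hn hn'
    exact hne (hdis l hl l' hl' n hn.2 hn'.2)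

theorem exists_bad {n : ℕ} (hn : 1 ≤ n) (h : NonArith n) : ∃ l : ℕ, l.Prime ∧ Bad l n := by
  by_contra hc
  push Not at hc
  apply h
  have hd : dd n ≠ 0 := by
    unfold dd
    have := Nat.card_pos (α := Unit)
    exact (Finset.card_pos.2 ⟨1, Nat.one_mem_divisors.2 (by omega)⟩).ne'
  have hs : ss n ≠ 0 := by
    unfold ss
    have h1 : (1 : ℕ) ≤ ∑ d ∈ n.divisors, d :=
      Finset.single_le_sum (f := fun d : ℕ => d) (fun _ _ => Nat.zero_le _)
        (Nat.one_mem_divisors.2 (by omega))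
    omega
  rw [← Nat.factorization_le_iff_dvd hd hs]
  intro p
  by_cases hp : p.Prime
  · rw [Nat.factorization_def _ hp, Nat.factorization_def _ hp]
    have := hc p hp
    unfold Bad at this
    omega
  · rw [Nat.factorization_eq_zero_of_not_prime _ hp]
    exact Nat.zero_le _

theorem nonArith_of {l n : ℕ} (hl : l.Prime) (hn : 1 ≤ n)
    (h : padicValNat 2 n = l - 1 ∧ ¬ l ∣ ss n) : NonArith n := by
  intro hdvd
  apply h.2
  refine dvd_trans ?_ hdvd
  unfold dd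
  rw [Nat.card_divisors (by omega)]
  have h2 : n.factorization 2 = l - 1 := by
    rw [Nat.factorization_def _ Nat.prime_two, h.1]
  have hl2 := hl.two_le
  have hmem : 2 ∈ n.primeFactors := by
    rw [← Nat.support_factorization, Finsupp.mem_support_iff, h2]
    omega
  have h3 := Finset.dvd_prod_of_mem (fun q => n.factorization q + 1) hmem
  simp only [h2] at h3
  have h4 : l - 1 + 1 = l := by omega
  rwa [h4] at h3

theorem EE_nonneg (l x : ℕ) : 0 ≤ EE l x := (Real.exp_pos _).le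

theorem EE_le_one {l x : ℕ} (hl : 2 ≤ l) (hx : 0 ≤ LL x) : EE l x ≤ 1 := by
  unfold EE
  rw [Real.exp_le_one_iff]
  have h1 : (2 : ℝ) ≤ l := by exact_mod_cast hl
  apply div_nonpos_of_nonpos_of_nonneg
  · linarith
  · linarith

theorem sum_le_MM {x : ℕ} (hx : 0 ≤ LL x)
    (hsum : Summable (fun l : Nat.Primes => (1 / 2 : ℝ) ^ (l : ℕ))) (J : Finset ℕ)
    (hJ : ∀ l ∈ J, l.Prime) : ∑ l ∈ J, (1 / 2 : ℝ) ^ l * EE l x ≤ MM x := by
  unfold MM
  rw [← Finset.sum_subtype_of_mem (fun l : ℕ => (1 / 2 : ℝ) ^ l * EE l x) hJ]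
  have hs : Summable (fun l : Nat.Primes => (1 / 2 : ℝ) ^ (l : ℕ) * EE l x) := by
    refine Summable.of_nonneg_of_le (fun l => ?_) (fun l => ?_) hsum
    · exact mul_nonneg (by positivity) (EE_nonneg _ _)
    · exact mul_le_of_le_one_right (by positivity) (EE_le_one l.2.two_le hx)
  have hf : ∀ (S : Finset Nat.Primes), ∑ l ∈ S, (1 / 2 : ℝ) ^ (l : ℕ) * EE l x
      ≤ ∑' l : Nat.Primes, (1 / 2 : ℝ) ^ (l : ℕ) * EE l x := fun S =>
    sum_le_hasSum S (fun l _ => mul_nonneg (by positivity) (EE_nonneg _ _)) hs.hasSum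
  exact hf _

theorem key_exp {s t : ℝ} {l : ℕ} (ht : 0 < t) (htl : t ≤ l) :
    (1 / 3 : ℝ) ^ l * Real.exp (-(99 / 100) * s ^ 2 / t) ≤ Real.exp (-(19 / 10) * s) := by
  have h1 : (1 / 3 : ℝ) ≤ Real.exp (-1) := by
    rw [Real.exp_neg, one_div]
    apply inv_anti₀ (Real.exp_pos 1)
    have := Real.exp_one_lt_d9
    linarith
  have h2 : (1 / 3 : ℝ) ^ l ≤ Real.exp (-(l : ℝ)) := by
    calc (1 / 3 : ℝ) ^ l ≤ (Real.exp (-1)) ^ l := pow_le_pow_left₀ (by norm_num) h1 l
      _ = Real.exp (-(l : ℝ)) := by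
        rw [← Real.exp_nat_mul]
        congr 1
        ring
  calc (1 / 3 : ℝ) ^ l * Real.exp (-(99 / 100) * s ^ 2 / t)
      ≤ Real.exp (-(l : ℝ)) * Real.exp (-(99 / 100) * s ^ 2 / t) :=
        mul_le_mul_of_nonneg_right h2 (Real.exp_pos _).le
    _ = Real.exp (-(l : ℝ) + -(99 / 100) * s ^ 2 / t) := by rw [Real.exp_add]
    _ ≤ Real.exp (-(19 / 10) * s) := by
        apply Real.exp_le_exp.2
        have h3 : -(99 / 100) * s ^ 2 / t ≤ -(19 / 10) * s + t := by
          rw [div_le_iff₀ ht]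
          nlinarith [sq_nonneg (t - 19 / 20 * s), sq_nonneg s]
        linarith

theorem tendsto_LL : Tendsto LL atTop atTop :=
  Real.tendsto_log_atTop.comp (Real.tendsto_log_atTop.comp tendsto_natCast_atTop_atTop)

theorem tendsto_s : Tendsto (fun x : ℕ => √(LL x)) atTop atTop :=
  Real.tendsto_sqrt_atTop.comp tendsto_LL

theorem small_err {D ε : ℝ} (hε : 0 < ε) :
    ∀ᶠ x : ℕ in atTop, D * √(LL x) * Real.exp (-(1 / 5) * √(LL x)) ≤ ε := by
  have h0 : Tendsto (fun t : ℝ => t ^ 1 * Real.exp (-t)) atTop (𝓝 0) :=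
    Real.tendsto_pow_mul_exp_neg_atTop_nhds_zero 1
  have h1 : Tendsto (fun x : ℕ => √(LL x) / 5) atTop atTop := tendsto_s.atTop_div_const (by norm_num)
  have h2 := (h0.comp h1).const_mul (5 * D)
  rw [mul_zero] at h2
  filter_upwards [h2.eventually (gt_mem_nhds hε)] with x hx
  have h3 : D * √(LL x) * Real.exp (-(1 / 5) * √(LL x))
      = 5 * D * (((fun t : ℝ => t ^ 1 * Real.exp (-t)) ∘ fun x : ℕ => √(LL x) / 5) x) := by
    simp only [Function.comp_apply, pow_one]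
    rw [show -(1 / 5) * √(LL x) = -(√(LL x) / 5) by ring]
    ring
  rw [h3]
  exact hx.le

/-- the property of the main type -/
def Mn (l n : ℕ) : Prop := padicValNat 2 n = l - 1 ∧ cnt l n = 0

theorem upper_x {C1 C2 C3 ε : ℝ} (hC1 : 0 < C1) (hC2 : 0 < C2) (hC3 : 0 < C3) (hε : 0 < ε)
    {x l3 l5 : ℕ} {s : ℝ} (hsd : s = √(LL x)) (hs4 : 4 ≤ s)
    (hsum : Summable (fun l : Nat.Primes => (1 / 2 : ℝ) ^ (l : ℕ)))
    (hSM : ∀ l : ℕ, l.Prime → l ≠ 2 →
      (l : ℝ) ^ 2 ≤ 900 * LL x → Nb (Bad l) x ≤ C2 * x * Real.exp (-(99 / 100) * LL x / ((l : ℝ) - 1)))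
    (hMI : ∀ l : ℕ, l.Prime → l3 ≤ l → (l : ℝ) ^ 2 ≤ 900 * LL x →
      Nb (fun n => Bad l n ∧ ¬ (padicValNat 2 n = l - 1 ∧ cnt l n = 0)) x ≤
        C3 * (1 / 3) ^ l * x * Real.exp (-(99 / 100) * LL x / ((l : ℝ) - 1)))
    (hl3 : (l3 : ℝ) ≤ s / 8)
    (hTW : Nb (Bad 2) x ≤ C1 * x * Real.exp (-(49 / 100) * LL x))
    (hTL : TL)
    (hUP : ∀ l : ℕ, l.Prime → l5 ≤ l → (l : ℝ) ^ 2 ≤ 400 * LL x →
      Nb (fun n => padicValNat 2 n = l - 1 ∧ cnt l n = 0) x ≤ (1 + ε) * ((1 / 2) ^ l * x * EE l x))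
    (hl5 : (l5 : ℝ) ≤ s / 8)
    (hMT : Real.exp (-(17 / 10) * s) ≤ MM x)
    (hD : (C1 + 10 * C2 + 10 * C3 + 8) * s * Real.exp (-(1 / 5) * s) ≤ ε) :
    Nb NonArith x ≤ (1 + 2 * ε) * (x * MM x) := by
  classical
  have hs0 : 0 < s := by linarith
  have hLpos : 0 < LL x := by
    by_contra hc
    push Not at hc
    rw [Real.sqrt_eq_zero_of_nonpos hc] at hsd
    linarith
  have hLs : LL x = s ^ 2 := by rw [hsd, Real.sq_sqrt hLpos.le]
  rw [hLs] at hSM hMI hTW hUP
  have hx0 : (0 : ℝ) ≤ x := Nat.cast_nonneg x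
  set K : ℕ := ⌊10 * s⌋₊ with hK
  have hKle : (K : ℝ) ≤ 10 * s := Nat.floor_le (by positivity)
  have hKlt : 10 * s < K + 1 := Nat.lt_floor_add_one _
  let J : Finset ℕ := (Icc 1 K).filter (fun l : ℕ => l.Prime ∧ s / 8 < (l : ℝ))
  let J2 : Finset ℕ := (Icc 1 K).filter (fun l : ℕ => l.Prime ∧ l ≠ 2 ∧ (l : ℝ) ≤ s / 8)
  have hJp : ∀ l ∈ J, l.Prime ∧ s / 8 < (l : ℝ) ∧ (l : ℝ) ≤ 10 * s := by
    intro l hl
    simp only [J, Finset.mem_filter, Finset.mem_Icc] at hl
    refine ⟨hl.2.1, hl.2.2, ?_⟩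
    have : (l : ℝ) ≤ K := by exact_mod_cast hl.1.2
    linarith
  have hJ2p : ∀ l ∈ J2, l.Prime ∧ l ≠ 2 ∧ (l : ℝ) ≤ s / 8 := by
    intro l hl
    simp only [J2, Finset.mem_filter, Finset.mem_Icc] at hl
    exact ⟨hl.2.1, hl.2.2.1, hl.2.2.2⟩
  have hJc : (J.card : ℝ) ≤ 10 * s := by
    have h1 : J.card ≤ K := by
      refine (Finset.card_filter_le _ _).trans ?_
      simp
    have h2 : (J.card : ℝ) ≤ K := by exact_mod_cast h1
    linarith
  have hJ2c : (J2.card : ℝ) ≤ 10 * s := by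
    have h1 : J2.card ≤ K := by
      refine (Finset.card_filter_le _ _).trans ?_
      simp
    have h2 : (J2.card : ℝ) ≤ K := by exact_mod_cast h1
    linarith
  -- covering
  have hcov : Nb NonArith x ≤ Nb (Bad 2) x + ((∑ l ∈ J2, Nb (Bad l) x) +
      ((∑ l ∈ J, Nb (Bad l) x) + Nb (fun n => ∃ l : ℕ, l.Prime ∧ K < l ∧ Bad l n) x)) := by
    have h1 : Nb NonArith x ≤ Nb (fun n => Bad 2 n ∨ ((∃ l ∈ J2, Bad l n) ∨
        ((∃ l ∈ J, Bad l n) ∨ (∃ l : ℕ, l.Prime ∧ K < l ∧ Bad l n)))) x := by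
      apply Nb_mono
      intro n hn hna
      obtain ⟨l, hl, hb⟩ := exists_bad hn hna
      by_cases h2 : l = 2
      · subst h2
        exact Or.inl hb
      right
      by_cases h3 : (l : ℝ) ≤ s / 8
      · left
        refine ⟨l, ?_, hb⟩
        simp only [J2, Finset.mem_filter, Finset.mem_Icc]
        refine ⟨⟨hl.one_le, ?_⟩, hl, h2, h3⟩
        rw [hK, Nat.le_floor_iff (by positivity)]
        linarith
      right
      by_cases h4 : l ≤ K
      · left
        refine ⟨l, ?_, hb⟩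
        simp only [J, Finset.mem_filter, Finset.mem_Icc]
        exact ⟨⟨hl.one_le, h4⟩, hl, not_le.1 h3⟩
      · right
        exact ⟨l, hl, not_le.1 h4, hb⟩
    refine h1.trans ?_
    refine (Nb_or _ _ x).trans (add_le_add le_rfl ?_)
    refine (Nb_or _ _ x).trans (add_le_add (Nb_exists J2 Bad x) ?_)
    exact (Nb_or _ _ x).trans (add_le_add (Nb_exists J Bad x) le_rfl)
  set e1 : ℝ := Real.exp (-(19 / 10) * s) with he1
  have he1pos : 0 < e1 := Real.exp_pos _
  -- first piece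
  have b1 : Nb (Bad 2) x ≤ C1 * x * e1 := by
    refine hTW.trans ?_
    apply mul_le_mul_of_nonneg_left _ (by positivity)
    apply Real.exp_le_exp.2
    nlinarith
  -- second piece
  have b2 : ∑ l ∈ J2, Nb (Bad l) x ≤ 10 * s * (C2 * x * e1) := by
    calc ∑ l ∈ J2, Nb (Bad l) x ≤ ∑ l ∈ J2, C2 * x * e1 := by
          apply Finset.sum_le_sum
          intro l hl
          obtain ⟨h1, h2, h3⟩ := hJ2p l hl
          have hl2 : (2 : ℝ) ≤ l := by exact_mod_cast h1.two_le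
          refine (hSM l h1 h2 (by nlinarith)).trans ?_
          apply mul_le_mul_of_nonneg_left _ (by positivity)
          apply Real.exp_le_exp.2
          have ht : (0 : ℝ) < (l : ℝ) - 1 := by linarith
          rw [div_le_iff₀ ht]
          nlinarith
      _ = J2.card * (C2 * x * e1) := by rw [Finset.sum_const, nsmul_eq_mul]
      _ ≤ 10 * s * (C2 * x * e1) := mul_le_mul_of_nonneg_right hJ2c (by positivity)
  -- third piece
  have b3 : ∑ l ∈ J, Nb (Bad l) x ≤ (1 + ε) * (x * MM x) + 10 * s * (C3 * x * e1) := by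
    calc ∑ l ∈ J, Nb (Bad l) x
        ≤ ∑ l ∈ J, ((1 + ε) * (x * ((1 / 2) ^ l * EE l x)) + C3 * x * e1) := by
          apply Finset.sum_le_sum
          intro l hl
          obtain ⟨h1, h2, h3⟩ := hJp l hl
          have hl2 : (2 : ℝ) ≤ l := by exact_mod_cast h1.two_le
          have hl3' : l3 ≤ l := by
            have : (l3 : ℝ) ≤ l := by linarith
            exact_mod_cast this
          have hl5' : l5 ≤ l := by
            have : (l5 : ℝ) ≤ l := by linarith
            exact_mod_cast this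
          have h4 : Nb (Bad l) x ≤ Nb (fun n => (padicValNat 2 n = l - 1 ∧ cnt l n = 0) ∨
              (Bad l n ∧ ¬ (padicValNat 2 n = l - 1 ∧ cnt l n = 0))) x := by
            apply Nb_mono
            intro n _ hb
            by_cases h : padicValNat 2 n = l - 1 ∧ cnt l n = 0
            · exact Or.inl h
            · exact Or.inr ⟨hb, h⟩
          refine h4.trans ((Nb_or _ _ x).trans (add_le_add ?_ ?_))
          · refine (hUP l h1 hl5' (by nlinarith)).trans (le_of_eq ?_)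
            ring
          · refine (hMI l h1 hl3' (by nlinarith)).trans ?_
            have h5 := key_exp (s := s) (t := (l : ℝ) - 1) (l := l) (by linarith) (by linarith)
            calc C3 * (1 / 3) ^ l * x * Real.exp (-(99 / 100) * s ^ 2 / ((l : ℝ) - 1))
                = C3 * x * ((1 / 3) ^ l * Real.exp (-(99 / 100) * s ^ 2 / ((l : ℝ) - 1))) := by ring
              _ ≤ C3 * x * e1 := mul_le_mul_of_nonneg_left h5 (by positivity)
      _ = (1 + ε) * (x * ∑ l ∈ J, (1 / 2 : ℝ) ^ l * EE l x) + J.card * (C3 * x * e1) := by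
          rw [Finset.sum_add_distrib, Finset.sum_const, nsmul_eq_mul, Finset.mul_sum, Finset.mul_sum]
      _ ≤ (1 + ε) * (x * MM x) + 10 * s * (C3 * x * e1) := by
          apply add_le_add
          · apply mul_le_mul_of_nonneg_left _ (by linarith)
            apply mul_le_mul_of_nonneg_left _ hx0
            exact sum_le_MM hLpos.le hsum J (fun l hl => (hJp l hl).1)
          · exact mul_le_mul_of_nonneg_right hJc (by positivity)
  -- fourth piece
  have b4 : Nb (fun n => ∃ l : ℕ, l.Prime ∧ K < l ∧ Bad l n) x ≤ 8 * x * e1 := by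
    have hK2 : 2 ≤ K := by
      rw [hK]
      apply Nat.le_floor
      push_cast
      linarith
    refine (hTL x K hK2).trans ?_
    rw [div_le_iff₀ (by positivity)]
    have h1 : Real.exp (19 / 10 * s) ≤ 2 ^ (K + 1) := by
      have h2 : (2 : ℝ) ^ (K + 1) = Real.exp (((K + 1 : ℕ) : ℝ) * Real.log 2) := by
        rw [mul_comm, Real.exp_mul, Real.exp_log (by norm_num), Real.rpow_natCast]
      rw [h2]
      apply Real.exp_le_exp.2
      have h3 := Real.log_two_gt_d9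
      push_cast
      nlinarith
    have h4 : e1 * Real.exp (19 / 10 * s) = 1 := by
      rw [he1, ← Real.exp_add]
      rw [show -(19 / 10) * s + 19 / 10 * s = 0 by ring, Real.exp_zero]
    have h5 : (1 : ℝ) ≤ e1 * 2 ^ (K + 1) := by
      rw [← h4]
      exact mul_le_mul_of_nonneg_left h1 he1pos.le
    rw [pow_succ] at h5
    have h6 : 4 * (x : ℝ) * 1 ≤ 4 * x * (e1 * (2 ^ K * 2)) :=
      mul_le_mul_of_nonneg_left h5 (by positivity)
    nlinarith
  -- total error
  have htot : C1 * x * e1 + 10 * s * (C2 * x * e1) + 10 * s * (C3 * x * e1) + 8 * x * e1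
      ≤ ε * (x * MM x) := by
    have h1 : C1 * x * e1 + 10 * s * (C2 * x * e1) + 10 * s * (C3 * x * e1) + 8 * x * e1
        ≤ x * e1 * ((C1 + 10 * C2 + 10 * C3 + 8) * s) := by
      have h2 : 0 ≤ x * e1 := by positivity
      have h3 : 0 ≤ x * e1 * (C1 * (s - 1)) :=
        mul_nonneg h2 (mul_nonneg hC1.le (by linarith))
      have h4 : 0 ≤ x * e1 * (8 * (s - 1)) := mul_nonneg h2 (by linarith)
      have h5 : x * e1 * ((C1 + 10 * C2 + 10 * C3 + 8) * s)
          - (C1 * x * e1 + 10 * s * (C2 * x * e1) + 10 * s * (C3 * x * e1) + 8 * x * e1)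
          = x * e1 * (C1 * (s - 1)) + x * e1 * (8 * (s - 1)) := by ring
      linarith
    refine h1.trans ?_
    have h5 : e1 = Real.exp (-(17 / 10) * s) * Real.exp (-(1 / 5) * s) := by
      rw [he1, ← Real.exp_add]
      congr 1
      ring
    calc x * e1 * ((C1 + 10 * C2 + 10 * C3 + 8) * s)
        = x * Real.exp (-(17 / 10) * s) *
          ((C1 + 10 * C2 + 10 * C3 + 8) * s * Real.exp (-(1 / 5) * s)) := by
          rw [h5]; ring
      _ ≤ x * Real.exp (-(17 / 10) * s) * ε := mul_le_mul_of_nonneg_left hD (by positivity)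
      _ ≤ x * MM x * ε := by
          apply mul_le_mul_of_nonneg_right _ hε.le
          exact mul_le_mul_of_nonneg_left hMT hx0
      _ = ε * (x * MM x) := by ring
  linarith

theorem lower_x {ε : ℝ} (hε1 : ε ≤ 1) {x l5 : ℕ} {s : ℝ} (hsd : s = √(LL x)) (hs4 : 4 ≤ s)
    (hLO : ∀ l : ℕ, l.Prime → l5 ≤ l → (l : ℝ) ^ 2 ≤ 400 * LL x →
      (1 - ε) * ((1 / 2) ^ l * x * EE l x) ≤ Nb (fun n => padicValNat 2 n = l - 1 ∧ ¬ l ∣ ss n) x)
    (hl5 : (l5 : ℝ) ≤ s / 8)
    (hMT : (1 - ε) * MM x ≤ ∑ l ∈ (Icc 1 ⌊10 * s⌋₊).filter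
      (fun l : ℕ => l.Prime ∧ s / 8 < (l : ℝ)), (1 / 2 : ℝ) ^ l * EE l x) :
    (1 - ε) * (1 - ε) * (x * MM x) ≤ Nb NonArith x := by
  classical
  have hs0 : 0 < s := by linarith
  have hLpos : 0 < LL x := by
    by_contra hc
    push Not at hc
    rw [Real.sqrt_eq_zero_of_nonpos hc] at hsd
    linarith
  have hLs : LL x = s ^ 2 := by rw [hsd, Real.sq_sqrt hLpos.le]
  rw [hLs] at hLO
  have hx0 : (0 : ℝ) ≤ x := Nat.cast_nonneg x
  set K : ℕ := ⌊10 * s⌋₊ with hK
  have hKle : (K : ℝ) ≤ 10 * s := Nat.floor_le (by positivity)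
  set J : Finset ℕ := (Icc 1 K).filter (fun l : ℕ => l.Prime ∧ s / 8 < (l : ℝ)) with hJ
  have hJp : ∀ l ∈ J, l.Prime ∧ s / 8 < (l : ℝ) ∧ (l : ℝ) ≤ 10 * s := by
    intro l hl
    simp only [hJ, Finset.mem_filter, Finset.mem_Icc] at hl
    refine ⟨hl.2.1, hl.2.2, ?_⟩
    have : (l : ℝ) ≤ K := by exact_mod_cast hl.1.2
    linarith
  calc (1 - ε) * (1 - ε) * (x * MM x) = (1 - ε) * x * ((1 - ε) * MM x) := by ring
    _ ≤ (1 - ε) * x * ∑ l ∈ J, (1 / 2 : ℝ) ^ l * EE l x :=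
        mul_le_mul_of_nonneg_left hMT (mul_nonneg (by linarith) hx0)
    _ = ∑ l ∈ J, (1 - ε) * ((1 / 2) ^ l * x * EE l x) := by
        rw [Finset.mul_sum]
        apply Finset.sum_congr rfl
        intro l _
        ring
    _ ≤ ∑ l ∈ J, Nb (fun n => padicValNat 2 n = l - 1 ∧ ¬ l ∣ ss n) x := by
        apply Finset.sum_le_sum
        intro l hl
        obtain ⟨h1, h2, h3⟩ := hJp l hl
        have hl5' : l5 ≤ l := by
          have : (l5 : ℝ) ≤ l := by linarith
          exact_mod_cast this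
        exact hLO l h1 hl5' (by nlinarith)
    _ ≤ Nb NonArith x := by
        apply Nb_disj J (fun l n => padicValNat 2 n = l - 1 ∧ ¬ l ∣ ss n) NonArith x
        · intro l hl n hn h
          exact nonArith_of (hJp l hl).1 hn h
        · intro l hl l' hl' n h h'
          have h1 := (hJp l hl).1.two_le
          have h2 := (hJp l' hl').1.two_le
          have h3 := h.1
          have h4 := h'.1
          omega

theorem taskFIN : TaskFIN := by
  intro hSM hMI hTW hTL hUP hLO hMT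
  obtain ⟨C2, x2, hC2, hSM⟩ := hSM
  obtain ⟨C3, x3, l3, hC3, hMI⟩ := hMI
  obtain ⟨C1, x1, hC1, hTW⟩ := hTW
  obtain ⟨⟨x4, hMT1⟩, hsum, hMT2⟩ := hMT
  have hbig : ∀ c : ℝ, ∀ᶠ x : ℕ in atTop, c ≤ √(LL x) := fun c => tendsto_s.eventually_ge_atTop c
  have hup : ∀ ε : ℝ, 0 < ε → ∀ᶠ x : ℕ in atTop, Nb NonArith x ≤ (1 + 2 * ε) * (x * MM x) := by
    intro ε hε
    obtain ⟨l5, x5, hUP⟩ := hUP ε hε
    filter_upwards [eventually_ge_atTop x1, eventually_ge_atTop x2, eventually_ge_atTop x3,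
      eventually_ge_atTop x4, eventually_ge_atTop x5, hbig 4, hbig (8 * l3), hbig (8 * l5),
      small_err (D := C1 + 10 * C2 + 10 * C3 + 8) hε] with x h1 h2 h3 h4 h5 h6 h7 h8 h9
    exact upper_x hC1 hC2 hC3 hε rfl h6 hsum (hSM x h2) (hMI x h3) (by linarith) (hTW x h1) hTL
      (hUP x h5) (by linarith) (hMT1 x h4) h9
  have hlow : ∀ ε : ℝ, 0 < ε → ε ≤ 1 →
      ∀ᶠ x : ℕ in atTop, (1 - ε) * (1 - ε) * (x * MM x) ≤ Nb NonArith x := by
    intro ε hε hε1
    obtain ⟨l5, x5, hLO⟩ := hLO ε hε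
    obtain ⟨x6, hMT2⟩ := hMT2 ε hε
    filter_upwards [eventually_ge_atTop x5, eventually_ge_atTop x6, hbig 4, hbig (8 * l5)]
      with x h1 h2 h3 h4
    exact lower_x hε1 rfl h3 (hLO x h1) (by linarith) (hMT2 x h2)
  have hpos : ∀ᶠ x : ℕ in atTop, 0 < x * MM x := by
    filter_upwards [eventually_ge_atTop x4, eventually_ge_atTop 1] with x h1 h2
    have h3 : (0 : ℝ) < x := by exact_mod_cast h2
    exact mul_pos h3 (lt_of_lt_of_le (Real.exp_pos _) (hMT1 x h1))
  rw [tendsto_order]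
  constructor
  · intro a ha
    have hδ : 0 < min 1 ((1 - a) / 4) := lt_min one_pos (by linarith)
    filter_upwards [hlow _ hδ (min_le_left _ _), hpos] with x h1 h2
    rw [lt_div_iff₀ h2]
    refine lt_of_lt_of_le ?_ h1
    apply mul_lt_mul_of_pos_right _ h2
    have h3 := min_le_right 1 ((1 - a) / 4)
    nlinarith [sq_nonneg (min 1 ((1 - a) / 4))]
  · intro a ha
    have hδ : 0 < (a - 1) / 4 := by linarith
    filter_upwards [hup _ hδ, hpos] with x h1 h2
    rw [div_lt_iff₀ h2]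
    refine lt_of_le_of_lt h1 ?_
    apply mul_lt_mul_of_pos_right _ h2
    linarith

end Pool.Agent.H32R3.NA
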